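import Pool.Agent.Q89.RF.Kr
import Pool.Agent.H898R3.Mix
import Pool.Agent.H254R2.FP_GADC
import Pool.Agent.H308R2.ZS.All
import Pool.Agent.H308R2.ZS.Final

/-!
# Infinite reduced free powers of pure states do not absorb `C([0,1])` with its state

Idea.  The reduced free product of pure states is pure: a positive functional `ψ ≤ φ` is determined
on the words by the purity of the factors.  So the state `σ^{*∞}` of the free power of a pure state
`σ` is pure.  The canonical unitary `u` of `C([0,1])` is in the centralizer of the free product state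
`ρ * σ^{*∞}`, with `u` and `u²` of expectation zero; then `x ↦ φ(h x)` with
`h = (1 + u)* (1 + u) / 4` is dominated by `φ` and no multiple of `φ`, so that `φ` is not pure.
-/

set_option autoImplicit false

open scoped ComplexConjugate ComplexOrder

noncomputable section

namespace Pool.Agent.Results.MP_f16f70_an.NoStatePreserving

/-- `φ` is a state. -/
structure IsState {A : Type} [CStarAlgebra A] (φ : A →ₗ[ℂ] ℂ) : Prop where
  one : φ 1 = 1
  pos : ∀ x, 0 ≤ φ (star x * x)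

/-- `φ` is pure: every positive functional dominated by `φ` is a multiple of `φ`. -/
def IsPure {A : Type} [CStarAlgebra A] (φ : A →ₗ[ℂ] ℂ) : Prop :=
  ∀ ψ : A →ₗ[ℂ] ℂ, (∀ x, 0 ≤ ψ (star x * x)) → (∀ x, ψ (star x * x) ≤ φ (star x * x)) →
    ∃ c : ℂ, ∀ x, ψ x = c * φ x

/-- `(D, ρ)` with the embeddings `e j : C → D`, `j ∈ ℕ`, is the reduced free product (Voiculescu) of
countably infinitely many copies of `(C, σ)`: `ρ` is a state which restricts to `σ` on each copy,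
the copies are free with respect to `ρ` (alternating products of centred elements have
expectation zero), they generate `D` as a C*-algebra, and the GNS representation of `ρ` is
faithful. -/
structure IsFreePower {C : Type} [CStarAlgebra C] (σ : C →ₗ[ℂ] ℂ) {D : Type} [CStarAlgebra D]
    (ρ : D →ₗ[ℂ] ℂ) (e : ℕ → C →⋆ₐ[ℂ] D) : Prop where
  one : ρ 1 = 1
  pos : ∀ x, 0 ≤ ρ (star x * x)
  marginal : ∀ j x, ρ (e j x) = σ x
  free : ∀ w : List (ℕ × C), w ≠ [] → w.IsChain (fun a b => a.1 ≠ b.1) →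
    (∀ z ∈ w, σ z.2 = 0) → ρ ((w.map fun z => e z.1 z.2).prod) = 0
  generating : (⨆ j, (e j).range).topologicalClosure = (⊤ : StarSubalgebra ℂ D)
  gns_faithful : ∀ a, (∀ x, ρ (star (a * x) * (a * x)) = 0) → a = 0

/-- The value of an embedded letter. -/
def letter {A B E : Type} [CStarAlgebra A] [CStarAlgebra B] [CStarAlgebra E] (i : A →⋆ₐ[ℂ] E)
    (j : B →⋆ₐ[ℂ] E) : A ⊕ B → E
  | Sum.inl a => i a
  | Sum.inr b => j b

/-- `(E, θ)` with the embeddings `i : A → E` and `j : B → E` is the reduced free product of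
`(A, φ)` and `(B, ψ)`. -/
structure IsReducedFreeProduct {A B : Type} [CStarAlgebra A] [CStarAlgebra B] (φ : A → ℂ)
    (ψ : B → ℂ) {E : Type} [CStarAlgebra E] (θ : E →ₗ[ℂ] ℂ) (i : A →⋆ₐ[ℂ] E)
    (j : B →⋆ₐ[ℂ] E) : Prop where
  one : θ 1 = 1
  pos : ∀ x, 0 ≤ θ (star x * x)
  left : ∀ a, θ (i a) = φ a
  right : ∀ b, θ (j b) = ψ b
  free : ∀ w : List (A ⊕ B), w ≠ [] → w.IsChain (fun x y => x.isLeft ≠ y.isLeft) →
    (∀ z ∈ w, Sum.elim φ ψ z = 0) → θ ((w.map (letter i j)).prod) = 0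
  generating : (i.range ⊔ j.range).topologicalClosure = (⊤ : StarSubalgebra ℂ E)
  gns_faithful : ∀ a, (∀ x, θ (star (a * x) * (a * x)) = 0) → a = 0

/-- The Lebesgue state `f ↦ ∫₀¹ f` on `C([0,1])`. -/
def leb (f : C(unitInterval, ℂ)) : ℂ := ∫ x : unitInterval, f x

open Pool.Agent.H923R2 Pool.Agent.H898R3.Mix Q89.RF

/-! ### conversions -/

theorem gen_eq {J : Type} {D : J → Type} [∀ j, CStarAlgebra (D j)] {A : Type} [CStarAlgebra A]
    (e : ∀ j, D j →⋆ₐ[ℂ] A) :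
    (⨆ j, (e j).range) = StarAlgebra.adjoin ℂ (⋃ j, Set.range (e j)) := by
  apply le_antisymm
  · refine iSup_le fun j => ?_
    rintro x ⟨y, rfl⟩
    exact StarAlgebra.subset_adjoin ℂ _ (Set.mem_iUnion.2 ⟨j, y, rfl⟩)
  · refine StarAlgebra.adjoin_le ?_
    refine Set.iUnion_subset fun j => ?_
    rintro x ⟨y, rfl⟩
    exact (le_iSup (fun j => (e j).range) j) ⟨y, rfl⟩

theorem pow_toRFP {C : Type} [CStarAlgebra C] {σ : C →ₗ[ℂ] ℂ} {D : Type} [CStarAlgebra D]
    {ρ : D →ₗ[ℂ] ℂ} {e : ℕ → C →⋆ₐ[ℂ] D} (h : IsFreePower σ ρ e) :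
    FZ.IsRFP (fun _ : ℕ => C) (fun _ => (σ : C → ℂ)) ρ e where
  one := h.one
  nonneg := h.pos
  tr := h.marginal
  free := by
    intro w hw hc hz
    have := h.free (w.map fun z => (z.1, z.2)) (by simpa using hw)
      (by
        rw [List.isChain_map]
        exact hc)
      (by
        intro z hz'
        obtain ⟨y, hy, rfl⟩ := List.mem_map.1 hz'
        exact hz y hy)
    rw [List.map_map] at this
    exact this
  gen := by rw [← gen_eq]; exact h.generating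
  gns := h.gns_faithful

theorem pow_ofRFP {C : Type} [CStarAlgebra C] {σ : C →ₗ[ℂ] ℂ} {D : Type} [CStarAlgebra D]
    {ρ : D →ₗ[ℂ] ℂ} {e : ℕ → C →⋆ₐ[ℂ] D}
    (h : FZ.IsRFP (fun _ : ℕ => C) (fun _ => (σ : C → ℂ)) ρ e) : IsFreePower σ ρ e where
  one := h.one
  pos := h.nonneg
  marginal := h.tr
  free := by
    intro w hw hc hz
    have := h.free (w.map fun z => ⟨z.1, z.2⟩) (by simpa using hw)
      (by
        rw [List.isChain_map]
        exact hc)
      (by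
        intro z hz'
        obtain ⟨y, hy, rfl⟩ := List.mem_map.1 hz'
        exact hz y hy)
    rw [List.map_map] at this
    exact this
  generating := by rw [gen_eq]; exact h.gen
  gns_faithful := h.gns

/-- free powers exist -/
theorem exists_power {C : Type} [CStarAlgebra C] {σ : C →ₗ[ℂ] ℂ} (h : IsState σ) :
    ∃ (D : Type) (_ : CStarAlgebra D) (ρ : D →ₗ[ℂ] ℂ) (e : ℕ → C →⋆ₐ[ℂ] D), IsFreePower σ ρ e := by
  obtain ⟨D, iD, ρ, e, hR⟩ := Q89.RF.exists_rfp ℕ (fun _ => C) (fun _ => σ)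
    (fun _ => ⟨h.one, h.pos⟩)
  exact ⟨D, iD, ρ, e, pow_ofRFP hR⟩

theorem sup_eq {A B E : Type} [CStarAlgebra A] [CStarAlgebra B] [CStarAlgebra E]
    (i : A →⋆ₐ[ℂ] E) (j : B →⋆ₐ[ℂ] E) :
    i.range ⊔ j.range = StarAlgebra.adjoin ℂ (⋃ b, Set.range (ee i j b)) := by
  apply le_antisymm
  · refine sup_le ?_ ?_
    · rintro x ⟨y, rfl⟩
      exact StarAlgebra.subset_adjoin ℂ _ (Set.mem_iUnion.2 ⟨true, y, rfl⟩)
    · rintro x ⟨y, rfl⟩
      exact StarAlgebra.subset_adjoin ℂ _ (Set.mem_iUnion.2 ⟨false, y, rfl⟩)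
  · refine StarAlgebra.adjoin_le ?_
    refine Set.iUnion_subset ?_
    rintro (_ | _)
    · rintro x ⟨y, rfl⟩
      exact (le_sup_right : j.range ≤ i.range ⊔ j.range) ⟨y, rfl⟩
    · rintro x ⟨y, rfl⟩
      exact (le_sup_left : i.range ≤ i.range ⊔ j.range) ⟨y, rfl⟩

/-- a letter of the disjoint union -/
def toSum {A B : Type} : (Σ b, DD A B b) → A ⊕ B
  | ⟨true, a⟩ => Sum.inl a
  | ⟨false, b⟩ => Sum.inr b

/-- converse -/
def ofSum {A B : Type} : A ⊕ B → (Σ b, DD A B b)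
  | Sum.inl a => ⟨true, a⟩
  | Sum.inr b => ⟨false, b⟩

/-- the two functionals -/
def tl {A B : Type} [CStarAlgebra A] [CStarAlgebra B] (φ : A →ₗ[ℂ] ℂ) (ψ : B →ₗ[ℂ] ℂ) :
    ∀ b, DD A B b →ₗ[ℂ] ℂ
  | true => φ
  | false => ψ

theorem toRFP {A B E : Type} [CStarAlgebra A] [CStarAlgebra B] [CStarAlgebra E] {φ : A →ₗ[ℂ] ℂ}
    {ψ : B →ₗ[ℂ] ℂ} {θ : E →ₗ[ℂ] ℂ} {i : A →⋆ₐ[ℂ] E} {j : B →⋆ₐ[ℂ] E}
    (h : IsReducedFreeProduct φ ψ θ i j) :
    FZ.IsRFP (DD A B) (fun b => (tl φ ψ b : DD A B b → ℂ)) θ (ee i j) where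
  one := h.one
  nonneg := h.pos
  tr := by
    rintro (_ | _) x
    · exact h.right x
    · exact h.left x
  free := by
    intro w hw hc hz
    have := h.free (w.map toSum) (by simpa using hw)
      (by
        rw [List.isChain_map]
        refine hc.imp ?_
        rintro ⟨(_ | _), x⟩ ⟨(_ | _), y⟩ hxy
        · exact absurd rfl hxy
        · exact Bool.false_ne_true
        · exact Bool.false_ne_true.symm
        · exact absurd rfl hxy)
      (by
        intro z hz'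
        obtain ⟨⟨(_ | _), y⟩, hy, rfl⟩ := List.mem_map.1 hz'
        · exact hz _ hy
        · exact hz _ hy)
    rw [List.map_map] at this
    rw [← this]
    congr 2
    refine List.map_congr_left ?_
    rintro ⟨(_ | _), y⟩ _ <;> rfl
  gen := by rw [← sup_eq]; exact h.generating
  gns := h.gns_faithful

theorem ofRFP {A B E : Type} [CStarAlgebra A] [CStarAlgebra B] [CStarAlgebra E] {φ : A →ₗ[ℂ] ℂ}
    {ψ : B →ₗ[ℂ] ℂ} {θ : E →ₗ[ℂ] ℂ} {i : A →⋆ₐ[ℂ] E} {j : B →⋆ₐ[ℂ] E}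
    (h : FZ.IsRFP (DD A B) (fun b => (tl φ ψ b : DD A B b → ℂ)) θ (ee i j)) :
    IsReducedFreeProduct φ ψ θ i j where
  one := h.one
  pos := h.nonneg
  left := fun a => h.tr true a
  right := fun b => h.tr false b
  free := by
    intro w hw hc hz
    have := h.free (w.map ofSum) (by simpa using hw)
      (by
        rw [List.isChain_map]
        refine hc.imp ?_
        rintro (x | x) (y | y) hxy
        · exact absurd rfl hxy
        · exact Bool.false_ne_true.symm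
        · exact Bool.false_ne_true
        · exact absurd rfl hxy)
      (by
        intro z hz'
        obtain ⟨(y | y), hy, rfl⟩ := List.mem_map.1 hz'
        · exact hz _ hy
        · exact hz _ hy)
    rw [List.map_map] at this
    rw [← this]
    congr 2
    refine List.map_congr_left ?_
    rintro (y | y) _ <;> rfl
  generating := by rw [sup_eq]; exact h.gen
  gns_faithful := h.gns

/-- existence of the reduced free product of two states -/
theorem exists_two {A B : Type} [CStarAlgebra A] [CStarAlgebra B] {φ : A →ₗ[ℂ] ℂ}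
    {ψ : B →ₗ[ℂ] ℂ} (hφ : IsSt φ) (hψ : IsSt ψ) :
    ∃ (E : Type) (_ : CStarAlgebra E) (θ : E →ₗ[ℂ] ℂ) (i : A →⋆ₐ[ℂ] E) (j : B →⋆ₐ[ℂ] E),
      IsReducedFreeProduct φ ψ θ i j := by
  obtain ⟨E, iE, θ, e, hR⟩ := Q89.RF.exists_rfp Bool (DD A B) (tl φ ψ) (by
    rintro (_ | _)
    · exact hψ
    · exact hφ)
  have h3 : e = ee (e true) (e false) := by
    funext b
    cases b <;> rfl
  rw [h3] at hR
  exact ⟨E, iE, θ, e true, e false, ofRFP hR⟩

/-- purity is preserved by isomorphisms -/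
theorem pure_iso {D E : Type} [CStarAlgebra D] [CStarAlgebra E] {ρ : D →ₗ[ℂ] ℂ} {θ : E →ₗ[ℂ] ℂ}
    (Φ : E ≃⋆ₐ[ℂ] D) (h : ∀ x, ρ (Φ x) = θ x) (hρ : Pure ρ) : Pure θ := by
  intro ψ hψ hle
  obtain ⟨c, hc⟩ := hρ (ψ.comp ((Φ.symm : D →⋆ₐ[ℂ] E) : D →ₗ[ℂ] E)) (by
    intro x
    change 0 ≤ ψ (Φ.symm (star x * x))
    rw [map_mul, map_star]
    exact hψ _) (by
    intro x
    change ψ (Φ.symm (star x * x)) ≤ _
    have := hle (Φ.symm x)
    rw [← h, map_mul Φ, map_star Φ, StarAlgEquiv.apply_symm_apply] at this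
    rwa [map_mul, map_star])
  refine ⟨c, fun x => ?_⟩
  have := hc (Φ x)
  change ψ (Φ.symm (Φ x)) = _ at this
  rwa [StarAlgEquiv.symm_apply_apply, h] at this

/-- the state of the free product is not pure -/
theorem not_pure_two {A B E : Type} [CStarAlgebra A] [CStarAlgebra B] [CStarAlgebra E]
    {φ : A →ₗ[ℂ] ℂ} {ψ : B →ₗ[ℂ] ℂ} {θ : E →ₗ[ℂ] ℂ} {i : A →⋆ₐ[ℂ] E} {j : B →⋆ₐ[ℂ] E}
    (h : IsReducedFreeProduct φ ψ θ i j) (u : A) (hu1 : star u * u = 1) (hu2 : u * star u = 1)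
    (hc : Cen φ u) (h0 : φ u = 0) (h2 : φ (u * u) ≠ -1) : ¬ Pure θ := by
  have hR := toRFP h
  have hcen : Cen θ (i u) := cen_rfp (j := true) (u := u) hR h0 hc
  refine not_pure hR.nonneg h.one hcen ?_ ?_ ?_ ?_
  · rw [← map_star, ← map_mul, hu1, map_one]
  · rw [← map_star, ← map_mul, hu2, map_one]
  · rw [h.left, h0]
  · rw [← map_mul, h.left]; exact h2

/-! ### the Lebesgue state -/

theorem leb_eq (f : C(unitInterval, ℂ)) : leb f = Pool.Agent.H308R2.ZS.lebl f := rfl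

theorem leb_st : IsSt Pool.Agent.H308R2.ZS.lebl := by
  have h := Pool.Agent.H308R2.ZS.fts_lebl FZ.T_LEBF.t_LEBF
  refine ⟨h.one, fun x => ?_⟩
  have h2 := h.str (star x * x)
  rw [star_mul, star_star] at h2
  rw [(Complex.conj_eq_iff_re.1 h2.symm).symm]
  exact_mod_cast h.nonneg x

theorem leb_pow (n : ℕ) (hn : n ≠ 0) : leb (FP.T_GADC.uC ^ n) = 0 := by
  have h1 : ∀ x : unitInterval, (FP.T_GADC.uC ^ n) x =
      Complex.exp (2 * Real.pi * Complex.I * n * (x : ℝ)) := by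
    intro x
    rw [ContinuousMap.pow_apply]
    show (Complex.exp (2 * Real.pi * Complex.I * (x : ℝ))) ^ n = _
    rw [← Complex.exp_nat_mul]
    congr 1
    ring
  have hc : (2 * Real.pi * Complex.I * n : ℂ) ≠ 0 := by
    simp [Real.pi_ne_zero, hn]
  unfold leb
  simp_rw [h1]
  rw [FP.T_GADC.int_unit (fun x : ℝ => Complex.exp (2 * Real.pi * Complex.I * n * (x : ℝ))),
    integral_exp_mul_complex hc]
  have h2 : Complex.exp (2 * Real.pi * Complex.I * n * ((1 : ℝ) : ℂ)) = 1 := by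
    rw [Complex.exp_eq_one_iff]
    exact ⟨n, by push_cast; ring⟩
  rw [h2]
  simp

/-- **Free powers of pure states do not absorb `C([0,1])` in a state-preserving way.**  Every nonzero
unital C*-algebra `C` has a pure state.  Let `σ` be any pure state on any unital C*-algebra `C`.  The
infinite reduced free power `(D, ρ)` of `(C, σ)` exists, the reduced free product `(E, θ)` of
`(C([0,1]), leb)` and `(D, ρ)` exists, and no *-isomorphism `Φ : E → D` satisfies `ρ ∘ Φ = θ`. -/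
theorem result :
    (∀ (C : Type) [CStarAlgebra C], Nontrivial C → ∃ σ : C →ₗ[ℂ] ℂ, IsState σ ∧ IsPure σ) ∧
    ∀ (C : Type) [CStarAlgebra C] (σ : C →ₗ[ℂ] ℂ), IsState σ → IsPure σ →
      (∃ (D : Type) (_ : CStarAlgebra D) (ρ : D →ₗ[ℂ] ℂ) (e : ℕ → C →⋆ₐ[ℂ] D),
        IsFreePower σ ρ e) ∧
      ∀ (D : Type) [CStarAlgebra D] (ρ : D →ₗ[ℂ] ℂ) (e : ℕ → C →⋆ₐ[ℂ] D), IsFreePower σ ρ e →
        (∃ (E : Type) (_ : CStarAlgebra E) (θ : E →ₗ[ℂ] ℂ) (i : C(unitInterval, ℂ) →⋆ₐ[ℂ] E)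
          (j : D →⋆ₐ[ℂ] E), IsReducedFreeProduct leb ρ θ i j) ∧
        ∀ (E : Type) [CStarAlgebra E] (θ : E →ₗ[ℂ] ℂ) (i : C(unitInterval, ℂ) →⋆ₐ[ℂ] E)
          (j : D →⋆ₐ[ℂ] E), IsReducedFreeProduct leb ρ θ i j →
          ∀ Φ : E ≃⋆ₐ[ℂ] D, ¬ ∀ x, ρ (Φ x) = θ x := by
  refine ⟨?_, ?_⟩
  · intro C _ _
    obtain ⟨σ, hσ, hp⟩ := exists_pure C
    exact ⟨σ, ⟨hσ.one, hσ.pos⟩, hp⟩
  intro C _ σ hσ hp
  refine ⟨exists_power hσ, ?_⟩
  intro D _ ρ e h
  refine ⟨exists_two (φ := Pool.Agent.H308R2.ZS.lebl) leb_st ⟨h.one, h.pos⟩, ?_⟩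
  intro E _ θ i j hE Φ hΦ
  have hρ : Pure ρ := pure_rfp (t := fun _ => σ) (pow_toRFP h) (fun _ => hp)
  have hu := Unitary.mem_iff.1 FP.T_GADC.uC_mem
  refine not_pure_two (φ := Pool.Agent.H308R2.ZS.lebl) hE FP.T_GADC.uC hu.1 hu.2 ?_ ?_ ?_
    (pure_iso Φ hΦ hρ)
  · intro a; rw [mul_comm]
  · have := leb_pow 1 one_ne_zero
    rw [pow_one] at this
    exact this
  · have := leb_pow 2 two_ne_zero
    rw [sq] at this
    rw [← leb_eq, this]
    norm_num

end Pool.Agent.Results.MP_f16f70_an.NoStatePreserving
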